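import Mathlib

/-!
Divisor counts for integer polynomials: `l ∣ F(a)` for few `a`.
-/

set_option autoImplicit false

open Filter Topology Polynomial

namespace Pool.Agent.X104.VL

/-- Divided differences: if `l` divides `F(a)` for `deg F + 1` distinct `a`, then `l` divides
`lc(F) * ∏ (a - b)`. -/
theorem dvd_vandermonde (F : ℤ[X]) (hF : F ≠ 0) (s : Finset ℤ) (hs : s.card = F.natDegree + 1)
    (l : ℤ) (hl : ∀ a ∈ s, l ∣ F.eval a) :
    l ∣ F.leadingCoeff * ∏ a ∈ s, ∏ b ∈ s.erase a, (a - b) := by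
  classical
  have key : (F.leadingCoeff * ∏ a ∈ s, ∏ b ∈ s.erase a, (a - b) : ℤ) =
      ∑ a ∈ s, F.eval a * ∏ a' ∈ s.erase a, ∏ b ∈ s.erase a', (a' - b) := by
    have h1 := Lagrange.leadingCoeff_eq_sum (F := ℚ) (s := s) (v := fun a : ℤ => (a : ℚ))
      (fun a _ b _ h => by simpa using h) (P := F.map (Int.castRingHom ℚ))
      (by
        rw [Polynomial.degree_map_eq_of_injective (RingHom.injective_int _),
          Polynomial.degree_eq_natDegree hF, hs]
        norm_cast)
    have h2 : (F.map (Int.castRingHom ℚ)).leadingCoeff = (F.leadingCoeff : ℚ) := by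
      rw [Polynomial.leadingCoeff_map_of_injective (RingHom.injective_int _)]
      simp
    have h3 : ∀ a : ℤ, (F.map (Int.castRingHom ℚ)).eval (a : ℚ) = ((F.eval a : ℤ) : ℚ) := by
      intro a
      rw [Polynomial.eval_intCast_map]
      simp
    have h4 : ((F.leadingCoeff * ∏ a ∈ s, ∏ b ∈ s.erase a, (a - b) : ℤ) : ℚ) =
        ((∑ a ∈ s, F.eval a * ∏ a' ∈ s.erase a, ∏ b ∈ s.erase a', (a' - b) : ℤ) : ℚ) := by
      push_cast
      rw [← h2, h1, Finset.sum_mul]
      refine Finset.sum_congr rfl fun a ha => ?_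
      rw [h3, ← Finset.mul_prod_erase s _ ha]
      have h5 : (∏ j ∈ s.erase a, ((a : ℚ) - (j : ℚ))) ≠ 0 := by
        rw [Finset.prod_ne_zero_iff]
        intro j hj
        rw [sub_ne_zero]
        intro h
        exact (Finset.ne_of_mem_erase hj) (by exact_mod_cast h.symm)
      field_simp
    exact_mod_cast h4
  rw [key]
  exact Finset.dvd_sum fun a ha => Dvd.dvd.mul_right (hl a ha) _

theorem natAbs_prod' (s : Finset ℤ) (f : ℤ → ℤ) :
    (∏ a ∈ s, f a).natAbs = ∏ a ∈ s, (f a).natAbs :=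
  map_prod Int.natAbsHom f s

/-- In a short interval few arguments have `l ∣ F(a)`. -/
theorem card_short (F : ℤ[X]) (hF : F ≠ 0) (l H : ℕ)
    (hH : F.leadingCoeff.natAbs * H ^ ((F.natDegree + 1) * F.natDegree) < l) (s : Finset ℕ)
    (hs : ∀ a ∈ s, ∀ b ∈ s, a < b + H) (hl : ∀ a ∈ s, (l : ℤ) ∣ F.eval (a : ℤ)) :
    s.card ≤ F.natDegree := by
  classical
  by_contra hcon
  push Not at hcon
  obtain ⟨t, hts, htc⟩ := Finset.exists_subset_card_eq (Nat.succ_le_of_lt hcon)
  have h1 := dvd_vandermonde F hF (t.image (fun a : ℕ => (a : ℤ)))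
    (by rw [Finset.card_image_of_injective _ Nat.cast_injective, htc]) (l : ℤ) (by
      intro a ha
      obtain ⟨b, hb, rfl⟩ := Finset.mem_image.mp ha
      exact hl b (hts hb))
  set t' := t.image (fun a : ℕ => (a : ℤ)) with ht'
  have hct : t'.card = F.natDegree + 1 := by
    rw [ht', Finset.card_image_of_injective _ Nat.cast_injective, htc]
  have hne : F.leadingCoeff * ∏ a ∈ t', ∏ b ∈ t'.erase a, (a - b) ≠ 0 := by
    refine mul_ne_zero (by simpa using hF) ?_
    rw [Finset.prod_ne_zero_iff]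
    intro a _
    rw [Finset.prod_ne_zero_iff]
    intro b hb
    rw [sub_ne_zero]
    exact (Finset.ne_of_mem_erase hb).symm
  have h2 := Int.natAbs_dvd_natAbs.mpr h1
  have h3 := Nat.le_of_dvd (Int.natAbs_pos.mpr hne) h2
  rw [Int.natAbs_mul] at h3
  have h4 : (∏ a ∈ t', ∏ b ∈ t'.erase a, (a - b)).natAbs ≤
      H ^ ((F.natDegree + 1) * F.natDegree) := by
    rw [natAbs_prod']
    calc ∏ a ∈ t', (∏ b ∈ t'.erase a, (a - b)).natAbs
        ≤ ∏ a ∈ t', H ^ F.natDegree := by
          refine Finset.prod_le_prod' fun a ha => ?_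
          rw [natAbs_prod']
          calc ∏ b ∈ t'.erase a, (a - b).natAbs ≤ ∏ b ∈ t'.erase a, H := by
                refine Finset.prod_le_prod' fun b hb => ?_
                obtain ⟨a', ha', rfl⟩ := Finset.mem_image.mp ha
                obtain ⟨b', hb', rfl⟩ := Finset.mem_image.mp (Finset.mem_of_mem_erase hb)
                have e1 := hs a' (hts ha') b' (hts hb')
                have e2 := hs b' (hts hb') a' (hts ha')
                omega
            _ = H ^ F.natDegree := by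
                rw [Finset.prod_const, Finset.card_erase_of_mem ha, hct]
                simp
      _ = H ^ ((F.natDegree + 1) * F.natDegree) := by
          rw [Finset.prod_const, hct, ← pow_mul, mul_comm]
  have h5 : (l : ℤ).natAbs = l := by simp
  rw [h5] at h3
  have h6 := Nat.mul_le_mul_left F.leadingCoeff.natAbs h4
  omega

/-- Counting by blocks. -/
theorem card_blocks (s : Finset ℕ) (N H n : ℕ) (hH : 0 < H) (hs : ∀ a ∈ s, a ≤ N)
    (hn : ∀ t ⊆ s, (∀ a ∈ t, ∀ b ∈ t, a < b + H) → t.card ≤ n) :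
    s.card ≤ n * (N / H + 1) := by
  classical
  refine (Finset.card_le_mul_card_image (f := fun a => a / H) s n ?_).trans ?_
  · intro q _
    refine hn _ (Finset.filter_subset _ _) ?_
    intro a ha b hb
    have h1 := (Finset.mem_filter.mp ha).2
    have h2 := (Finset.mem_filter.mp hb).2
    have h3 := Nat.div_add_mod a H
    have h4 := Nat.div_add_mod b H
    have h5 := Nat.mod_lt a hH
    rw [h1] at h3
    rw [h2] at h4
    have := Nat.zero_le (b % H)
    omega
  · refine Nat.mul_le_mul_left n ?_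
    calc (s.image (fun a => a / H)).card ≤ (Finset.range (N / H + 1)).card := by
          refine Finset.card_le_card ?_
          intro q hq
          obtain ⟨a, ha, rfl⟩ := Finset.mem_image.mp hq
          rw [Finset.mem_range]
          exact Nat.lt_succ_of_le (Nat.div_le_div_right (hs a ha))
      _ = N / H + 1 := by simp

/-- The number of `a ≤ N` with `l ∣ F(a)` is at most `C N l^(-δ)`. -/
theorem card_dvd (F : ℤ[X]) (hd : 0 < F.natDegree) : ∃ C : ℝ, ∃ δ : ℝ, 0 < C ∧ 0 < δ ∧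
    ∀ N l : ℕ, F.leadingCoeff.natAbs + 1 ≤ l → l ≤ N →
      (((Finset.Icc 1 N).filter (fun a : ℕ => (l : ℤ) ∣ F.eval (a : ℤ))).card : ℝ) ≤
        C * N * (l : ℝ) ^ (-δ) := by
  classical
  have hF : F ≠ 0 := by
    rintro rfl
    simp at hd
  set D : ℕ := (F.natDegree + 1) * F.natDegree with hD
  have hDpos : 0 < D := by positivity
  set α : ℕ := F.leadingCoeff.natAbs with hα
  refine ⟨3 * F.natDegree * ((α : ℝ) + 1) ^ ((D : ℝ)⁻¹), (D : ℝ)⁻¹, by positivity, by positivity,
    ?_⟩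
  intro N l hl hlN
  have hα0 : (0 : ℝ) < (α : ℝ) + 1 := by positivity
  have hl0 : (0 : ℝ) < (l : ℝ) := by
    have : 0 < l := by omega
    exact_mod_cast this
  set x : ℝ := ((l : ℝ) / ((α : ℝ) + 1)) ^ ((D : ℝ)⁻¹) with hx
  have hq1 : (1 : ℝ) ≤ (l : ℝ) / ((α : ℝ) + 1) := by
    rw [one_le_div hα0]
    exact_mod_cast hl
  have hx1 : 1 ≤ x := Real.one_le_rpow hq1 (by positivity)
  have hxD : x ^ D = (l : ℝ) / ((α : ℝ) + 1) := by
    rw [hx, Real.rpow_inv_natCast_pow (by positivity) hDpos.ne']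
  set H : ℕ := ⌊x⌋₊ with hH
  have hH1 : 1 ≤ H := Nat.le_floor (by simpa using hx1)
  have hHx : (H : ℝ) ≤ x := Nat.floor_le (by positivity)
  have hxH : x < H + 1 := Nat.lt_floor_add_one x
  have hHr : (1 : ℝ) ≤ (H : ℝ) := by exact_mod_cast hH1
  have hlow : α * H ^ D < l := by
    have h1 : ((α * H ^ D : ℕ) : ℝ) < l := by
      push_cast
      calc (α : ℝ) * (H : ℝ) ^ D ≤ α * x ^ D := by gcongr
        _ = α * ((l : ℝ) / ((α : ℝ) + 1)) := by rw [hxD]
        _ = l * (α / ((α : ℝ) + 1)) := by ring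
        _ < l * 1 := by
            refine mul_lt_mul_of_pos_left ?_ hl0
            rw [div_lt_one hα0]
            linarith
        _ = l := by ring
    exact_mod_cast h1
  have hcard := card_blocks ((Finset.Icc 1 N).filter (fun a : ℕ => (l : ℤ) ∣ F.eval (a : ℤ)))
    N H F.natDegree hH1 (fun a ha => (Finset.mem_Icc.mp (Finset.mem_filter.mp ha).1).2)
    (fun t ht hts => card_short F hF l H hlow t hts
      (fun a ha => (Finset.mem_filter.mp (ht ha)).2))
  have hxl : x ≤ N := by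
    have h1 : x ≤ x ^ D := le_self_pow₀ hx1 hDpos.ne'
    have h2 : (l : ℝ) / ((α : ℝ) + 1) ≤ l := div_le_self hl0.le (by linarith [(by positivity : (0:ℝ) ≤ (α:ℝ))])
    have h3 : (l : ℝ) ≤ N := by exact_mod_cast hlN
    rw [hxD] at h1
    linarith
  have hx0 : 0 < x := by linarith
  have h1 : (((Finset.Icc 1 N).filter (fun a : ℕ => (l : ℤ) ∣ F.eval (a : ℤ))).card : ℝ) ≤
      F.natDegree * ((N : ℝ) / H + 1) := by
    calc (((Finset.Icc 1 N).filter (fun a : ℕ => (l : ℤ) ∣ F.eval (a : ℤ))).card : ℝ)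
        ≤ ((F.natDegree * (N / H + 1) : ℕ) : ℝ) := by exact_mod_cast hcard
      _ = F.natDegree * (((N / H : ℕ) : ℝ) + 1) := by push_cast; ring
      _ ≤ F.natDegree * ((N : ℝ) / H + 1) := by
          gcongr
          exact Nat.cast_div_le
  have h2 : (N : ℝ) / H + 1 ≤ 3 * (N / x) := by
    have e1 : x / 2 ≤ H := by linarith
    have e2 : (N : ℝ) / H ≤ N / (x / 2) := by
      gcongr
    have e3 : (N : ℝ) / (x / 2) = 2 * (N / x) := by
      field_simp
    have e4 : 1 ≤ (N : ℝ) / x := by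
      rw [one_le_div hx0]
      exact hxl
    linarith
  have h3 : (N : ℝ) / x = N * (((α : ℝ) + 1) ^ ((D : ℝ)⁻¹) * (l : ℝ) ^ (-(D : ℝ)⁻¹)) := by
    rw [hx, Real.div_rpow hl0.le hα0.le, Real.rpow_neg hl0.le]
    field_simp
  calc (((Finset.Icc 1 N).filter (fun a : ℕ => (l : ℤ) ∣ F.eval (a : ℤ))).card : ℝ)
      ≤ F.natDegree * ((N : ℝ) / H + 1) := h1
    _ ≤ F.natDegree * (3 * (N / x)) := by gcongr
    _ = 3 * F.natDegree * ((α : ℝ) + 1) ^ ((D : ℝ)⁻¹) * N * (l : ℝ) ^ (-(D : ℝ)⁻¹) := by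
        rw [h3]; ring

end Pool.Agent.X104.VL
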