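import Pool.Agent.X104.VL.Ratio

/-!
Almost all lattice points are visible along a polynomial with two distinct roots.
-/

set_option autoImplicit false

open Filter Topology Polynomial Asymptotics

namespace Pool.Agent.X104.VL

/-- `(a, h)` is visible along `F`: `h = t F(a)` for a rational `t` such that `a` is the smallest
positive integer `u` for which `t F(u)` is a positive integer. -/
def Visible (F : ℤ[X]) (a h : ℕ) : Prop :=
  ∃ t : ℚ, (h : ℚ) = t * ((F.eval (a : ℤ) : ℤ) : ℚ) ∧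
    IsLeast {u : ℕ | 0 < u ∧ ∃ n : ℕ, 0 < n ∧ t * ((F.eval (u : ℤ) : ℤ) : ℚ) = n} a

/-- The ratio set has density zero. -/
theorem ratio_density (F : ℤ[X]) (hF : 0 < F.leadingCoeff)
    (hr : ∃ z w : ℂ, z ≠ w ∧ aeval z F = 0 ∧ aeval w F = 0) (k l : ℕ) (hk : 0 < k) (hkl : k < l)
    (ε : ℝ) (hε : 0 < ε) [DecidablePred (· ∈ ratioSet F k l)] :
    ∀ᶠ N : ℕ in atTop,
      (((Finset.Icc 1 N).filter (· ∈ ratioSet F k l)).card : ℝ) ≤ ε * N := by
  classical
  obtain ⟨M, hM⟩ := exists_nat_gt (2 / ε)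
  have hM0 : 0 < M := by
    have : (0 : ℝ) < M := lt_trans (by positivity) hM
    exact_mod_cast this
  have hMr : (0 : ℝ) < M := by exact_mod_cast hM0
  have hfin : (⋃ m ∈ Finset.Icc 1 M, {a | a ∈ ratioSet F k l ∧ a + m ∈ ratioSet F k l}).Finite := by
    refine Set.Finite.biUnion (Finset.finite_toSet _) fun m hm => ?_
    exact finite_gap F hF hr k l hk hkl m (by
      have := (Finset.mem_Icc.mp (Finset.mem_coe.mp hm)).1
      omega)
  obtain ⟨B, hB⟩ := hfin.bddAbove
  have hcard : ∀ N : ℕ, (((Finset.Icc 1 N).filter (· ∈ ratioSet F k l)).card) ≤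
      (B + 1) + (1 * (N / M + 1)) := by
    intro N
    have h1 : (Finset.Icc 1 N).filter (· ∈ ratioSet F k l) ⊆
        Finset.range (B + 1) ∪ ((Finset.Icc 1 N).filter (fun a => a ∈ ratioSet F k l ∧ B < a)) := by
      intro a ha
      rw [Finset.mem_filter] at ha
      rw [Finset.mem_union, Finset.mem_range, Finset.mem_filter]
      rcases Nat.lt_or_ge a (B + 1) with h | h
      · exact Or.inl h
      · exact Or.inr ⟨ha.1, ha.2, by omega⟩
    refine (Finset.card_le_card h1).trans ((Finset.card_union_le _ _).trans ?_)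
    rw [Finset.card_range]
    refine Nat.add_le_add_left ?_ _
    refine card_blocks _ N M 1 hM0 (fun a ha => (Finset.mem_Icc.mp (Finset.mem_filter.mp ha).1).2) ?_
    intro t ht htt
    have key : ∀ a ∈ t, ∀ b ∈ t, a < b → False := by
      intro a ha b hb hab
      have h2 := htt b hb a ha
      have h3 := (Finset.mem_filter.mp (ht ha)).2
      have h4 := (Finset.mem_filter.mp (ht hb)).2
      have h5 : a ≤ B := hB (by
        simp only [Set.mem_iUnion]
        refine ⟨b - a, Finset.mem_Icc.mpr ⟨by omega, by omega⟩, h3.1, ?_⟩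
        have : a + (b - a) = b := by omega
        rw [this]
        exact h4.1)
      omega
    rw [Finset.card_le_one]
    intro a ha b hb
    rcases lt_trichotomy a b with h | h | h
    · exact (key a ha b hb h).elim
    · exact h
    · exact (key b hb a ha h).elim
  have hev : ∀ᶠ N : ℕ in atTop, ((B : ℝ) + 2) * (2 / ε) ≤ N :=
    tendsto_natCast_atTop_atTop.eventually_ge_atTop _
  filter_upwards [hev] with N hN
  have h1 : (((Finset.Icc 1 N).filter (· ∈ ratioSet F k l)).card : ℝ) ≤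
      (B + 1) + ((N : ℝ) / M + 1) := by
    calc (((Finset.Icc 1 N).filter (· ∈ ratioSet F k l)).card : ℝ)
        ≤ (((B + 1) + (1 * (N / M + 1)) : ℕ) : ℝ) := by exact_mod_cast hcard N
      _ = (B + 1) + (((N / M : ℕ) : ℝ) + 1) := by push_cast; ring
      _ ≤ (B + 1) + ((N : ℝ) / M + 1) := by
          gcongr
          exact Nat.cast_div_le
  have h2 : (N : ℝ) / M ≤ ε / 2 * N := by
    rw [div_le_iff₀ hMr]
    have h3 : 1 ≤ ε / 2 * M := by
      have := (div_lt_iff₀ hε).mp hM
      linarith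
    nlinarith [(Nat.cast_nonneg N : (0 : ℝ) ≤ N)]
  have h3 : (B : ℝ) + 2 ≤ ε / 2 * N := by
    have h4 : ((B : ℝ) + 2) * (2 / ε) * (ε / 2) ≤ N * (ε / 2) := by gcongr
    have h5 : ((B : ℝ) + 2) * (2 / ε) * (ε / 2) = B + 2 := by field_simp
    linarith
  linarith

/-- Eventually `F(a)` is positive and exceeds all earlier values. -/
theorem eventually_record (F : ℤ[X]) (hF : 0 < F.leadingCoeff) (hd : 0 < F.natDegree) :
    ∀ᶠ a : ℕ in atTop, 0 < F.eval (a : ℤ) ∧ ∀ u : ℕ, u < a → F.eval (u : ℤ) < F.eval (a : ℤ) := by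
  set P : ℝ[X] := F.map (Int.castRingHom ℝ) with hPdef
  have hPe : ∀ n : ℕ, P.eval (n : ℝ) = ((F.eval (n : ℤ) : ℤ) : ℝ) := by
    intro n
    rw [hPdef, Polynomial.eval_natCast_map]
    simp
  have hPl : P.leadingCoeff = (F.leadingCoeff : ℝ) := by
    rw [hPdef, Polynomial.leadingCoeff_map_of_injective (RingHom.injective_int _)]
    simp
  have hPd : P.natDegree = F.natDegree := by
    rw [hPdef, Polynomial.natDegree_map_eq_of_injective (RingHom.injective_int _)]
  have hPlc : 0 < P.leadingCoeff := by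
    rw [hPl]
    exact_mod_cast hF
  have hPd0 : 0 < P.natDegree := by rw [hPd]; exact hd
  have hPtop : Tendsto (fun x : ℝ => P.eval x) atTop atTop := by
    refine Polynomial.tendsto_atTop_of_leadingCoeff_nonneg P ?_ hPlc.le
    rw [← Polynomial.natDegree_pos_iff_degree_pos]
    exact hPd0
  have hder : ∀ᶠ x : ℝ in atTop, 0 < P.derivative.eval x := by
    have h1 := tendsto_div_pow P.derivative (P.natDegree - 1) (Polynomial.natDegree_derivative_le P)
    have h2 : 0 < P.derivative.coeff (P.natDegree - 1) := by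
      rw [Polynomial.coeff_derivative]
      have h3 : P.natDegree - 1 + 1 = P.natDegree := by omega
      rw [h3]
      have : 0 < P.coeff P.natDegree := hPlc
      positivity
    filter_upwards [h1.eventually_const_lt h2, eventually_gt_atTop (0 : ℝ)] with x hx hx0
    by_contra hcon
    push Not at hcon
    have : P.derivative.eval x / x ^ (P.natDegree - 1) ≤ 0 := div_nonpos_of_nonpos_of_nonneg hcon (by positivity)
    linarith
  obtain ⟨x0, hx0⟩ := eventually_atTop.mp hder
  have hmono : StrictMonoOn (fun x : ℝ => P.eval x) (Set.Ici x0) := by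
    refine strictMonoOn_of_deriv_pos (convex_Ici x0) P.continuous.continuousOn ?_
    intro x hx
    rw [interior_Ici] at hx
    rw [Polynomial.deriv]
    exact hx0 x (le_of_lt hx)
  obtain ⟨b, hb⟩ := exists_nat_gt x0
  set M : ℝ := ∑ v ∈ Finset.range b, |P.eval (v : ℝ)| with hM
  have hM0 : 0 ≤ M := Finset.sum_nonneg fun _ _ => abs_nonneg _
  have h1 : ∀ᶠ a : ℕ in atTop, M < P.eval (a : ℝ) :=
    (hPtop.comp tendsto_natCast_atTop_atTop).eventually_gt_atTop _
  filter_upwards [h1] with a ha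
  refine ⟨?_, ?_⟩
  · have : (0 : ℝ) < ((F.eval (a : ℤ) : ℤ) : ℝ) := by
      rw [← hPe]
      linarith
    exact_mod_cast this
  · intro u hu
    have h2 : P.eval (u : ℝ) < P.eval (a : ℝ) := by
      rcases Nat.lt_or_ge u b with h | h
      · have h5 : P.eval (u : ℝ) ≤ M :=
          (le_abs_self _).trans (Finset.single_le_sum (f := fun v : ℕ => |P.eval (v : ℝ)|)
            (fun _ _ => abs_nonneg _) (Finset.mem_range.mpr h))
        linarith
      · have h3 : (b : ℝ) ≤ u := by exact_mod_cast h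
        have h4 : (u : ℝ) < a := by exact_mod_cast hu
        exact hmono (Set.mem_Ici.mpr (by linarith)) (Set.mem_Ici.mpr (by linarith)) h4
    rw [hPe, hPe] at h2
    exact_mod_cast h2

/-- An invisible point (with `a` large) has a common divisor structure. -/
theorem invisible_struct (F : ℤ[X]) (a h : ℕ) (ha : 0 < a) (hh : 0 < h)
    (hpos : 0 < F.eval (a : ℤ)) (hrec : ∀ u : ℕ, u < a → F.eval (u : ℤ) < F.eval (a : ℤ))
    (hinv : ¬ Visible F a h) :
    ∃ k l : ℕ, 0 < k ∧ k < l ∧ l ∣ h ∧ (l : ℤ) ∣ F.eval (a : ℤ) ∧ a ∈ ratioSet F k l := by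
  have hFa : ((F.eval (a : ℤ) : ℤ) : ℚ) ≠ 0 := by exact_mod_cast hpos.ne'
  have h1 : ¬ IsLeast {u : ℕ | 0 < u ∧ ∃ n : ℕ, 0 < n ∧
      ((h : ℚ) / ((F.eval (a : ℤ) : ℤ) : ℚ)) * ((F.eval (u : ℤ) : ℤ) : ℚ) = n} a := by
    intro hl
    exact hinv ⟨_, by field_simp, hl⟩
  have h2 : ∃ u : ℕ, u < a ∧ 0 < u ∧ ∃ n : ℕ, 0 < n ∧
      ((h : ℚ) / ((F.eval (a : ℤ) : ℤ) : ℚ)) * ((F.eval (u : ℤ) : ℤ) : ℚ) = n := by
    by_contra hcon
    apply h1
    refine ⟨⟨ha, h, hh, by field_simp⟩, ?_⟩
    intro u hu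
    by_contra hlt
    push Not at hlt
    exact hcon ⟨u, hlt, hu.1, hu.2⟩
  obtain ⟨u, hua, -, n, hn, hun⟩ := h2
  have h3 : (h : ℤ) * F.eval (u : ℤ) = n * F.eval (a : ℤ) := by
    have h4 : (h : ℚ) * ((F.eval (u : ℤ) : ℤ) : ℚ) = n * ((F.eval (a : ℤ) : ℤ) : ℚ) := by
      rw [← hun]
      field_simp
    exact_mod_cast h4
  have hlt := hrec u hua
  have hup : 0 < F.eval (u : ℤ) := by
    have h4 : 0 < (h : ℤ) * F.eval (u : ℤ) := by
      rw [h3]
      have : (0 : ℤ) < n := by exact_mod_cast hn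
      positivity
    have h5 : (0 : ℤ) < h := by exact_mod_cast hh
    exact (mul_pos_iff_of_pos_left h5).mp h4
  obtain ⟨A, hA⟩ := Int.eq_ofNat_of_zero_le hpos.le
  obtain ⟨B, hB⟩ := Int.eq_ofNat_of_zero_le hup.le
  obtain ⟨k, l, hcop, hBk, hAl⟩ := Nat.exists_coprime B A
  have hA0 : 0 < A := by
    have := hpos
    rw [hA] at this
    exact_mod_cast this
  have hB0 : 0 < B := by
    have := hup
    rw [hB] at this
    exact_mod_cast this
  have hg : 0 < Nat.gcd B A := Nat.gcd_pos_of_pos_left _ hB0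
  set g := Nat.gcd B A with hgdef
  have hBA : B < A := by
    have := hlt
    rw [hA, hB] at this
    exact_mod_cast this
  have hk0 : 0 < k := by
    rcases Nat.eq_zero_or_pos k with h | h
    · rw [h, zero_mul] at hBk
      omega
    · exact h
  have hkl : k < l := by
    by_contra hcon
    push Not at hcon
    have := Nat.mul_le_mul_right g hcon
    omega
  refine ⟨k, l, hk0, hkl, ?_, ?_, u, hua, ?_⟩
  · have h4 : h * B = n * A := by
      rw [hA, hB] at h3
      exact_mod_cast h3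
    have h5 : h * k * g = n * l * g := by
      calc h * k * g = h * (k * g) := by ring
        _ = h * B := by rw [← hBk]
        _ = n * A := h4
        _ = n * (l * g) := by rw [← hAl]
        _ = n * l * g := by ring
    have h6 : h * k = n * l := Nat.eq_of_mul_eq_mul_right hg h5
    have h7 : l ∣ h * k := ⟨n, by rw [h6]; ring⟩
    exact hcop.symm.dvd_of_dvd_mul_right h7
  · rw [hA]
    exact_mod_cast (⟨g, hAl⟩ : l ∣ A)
  · rw [hA, hB]
    have : l * B = k * A := by
      calc l * B = l * (k * g) := by rw [← hBk]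
        _ = k * (l * g) := by ring
        _ = k * A := by rw [← hAl]
    exact_mod_cast this

/-- The number of invisible points is `o(N²)`. -/
theorem invisible_bound (F : ℤ[X]) (hF : 0 < F.leadingCoeff)
    (hr : ∃ z w : ℂ, z ≠ w ∧ aeval z F = 0 ∧ aeval w F = 0) (ε : ℝ) (hε : 0 < ε)
    [DecidablePred (fun p : ℕ × ℕ => ¬ Visible F p.1 p.2)] :
    ∀ᶠ N : ℕ in atTop,
      (((Finset.Icc 1 N ×ˢ Finset.Icc 1 N).filter (fun p => ¬ Visible F p.1 p.2)).card : ℝ) ≤
        ε * (N : ℝ) ^ 2 := by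
  classical
  have hd : 0 < F.natDegree := by
    obtain ⟨z, w, hzw, hz, hw⟩ := hr
    rcases Nat.eq_zero_or_pos F.natDegree with h | h
    · exfalso
      have hF0 : F ≠ 0 := by
        rintro rfl
        simp at hF
      rw [Polynomial.eq_C_of_natDegree_eq_zero h] at hz hF0
      simp only [Polynomial.aeval_C] at hz
      apply hF0
      rw [map_eq_zero_iff] at hz
      · rw [hz]; simp
      · exact RingHom.injective_int _
    · exact h
  obtain ⟨C, δ, hC, hδ, hdvd⟩ := card_dvd F hd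
  obtain ⟨a0, ha0⟩ := eventually_atTop.mp (eventually_record F hF hd)
  have hsum : Summable (fun n : ℕ => (n : ℝ) ^ (-(1 + δ))) :=
    Real.summable_nat_rpow.mpr (by linarith)
  obtain ⟨s, hs⟩ := summable_iff_vanishing_norm.mp hsum (ε / (3 * C)) (by positivity)
  set A : ℕ := s.sup id + F.leadingCoeff.natAbs + 1 with hA
  set J : Finset (ℕ × ℕ) :=
    (Finset.range (A + 1) ×ˢ Finset.range (A + 1)).filter (fun q => 0 < q.1 ∧ q.1 < q.2) with hJ
  -- covering
  have hcover : ∀ N : ℕ, (Finset.Icc 1 N ×ˢ Finset.Icc 1 N).filter (fun p => ¬ Visible F p.1 p.2) ⊆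
      (Finset.range a0 ×ˢ Finset.Icc 1 N) ∪
      ((J.biUnion fun q => ((Finset.Icc 1 N).filter (· ∈ ratioSet F q.1 q.2)) ×ˢ Finset.Icc 1 N) ∪
        ((Finset.Ioc A N).biUnion fun l =>
          ((Finset.Icc 1 N).filter (fun a : ℕ => (l : ℤ) ∣ F.eval (a : ℤ))) ×ˢ
            ((Finset.Icc 1 N).filter (fun h : ℕ => l ∣ h)))) := by
    intro N p hp
    rw [Finset.mem_filter, Finset.mem_product] at hp
    obtain ⟨⟨hp1, hp2⟩, hp3⟩ := hp
    rw [Finset.mem_union, Finset.mem_union]
    rcases Nat.lt_or_ge p.1 a0 with h | h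
    · left
      rw [Finset.mem_product, Finset.mem_range]
      exact ⟨h, hp2⟩
    · right
      have hh := ha0 p.1 h
      obtain ⟨k, l, hk, hkl, hlh, hlF, hmem⟩ := invisible_struct F p.1 p.2
        (by have := (Finset.mem_Icc.mp hp1).1; omega)
        (by have := (Finset.mem_Icc.mp hp2).1; omega) hh.1 hh.2 hp3
      rcases Nat.lt_or_ge A l with hAl | hAl
      · right
        rw [Finset.mem_biUnion]
        refine ⟨l, ?_, ?_⟩
        · rw [Finset.mem_Ioc]
          refine ⟨hAl, ?_⟩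
          have h1 := (Finset.mem_Icc.mp hp2)
          exact (Nat.le_of_dvd (by omega) hlh).trans h1.2
        · rw [Finset.mem_product, Finset.mem_filter, Finset.mem_filter]
          exact ⟨⟨hp1, hlF⟩, ⟨hp2, hlh⟩⟩
      · left
        rw [Finset.mem_biUnion]
        refine ⟨(k, l), ?_, ?_⟩
        · rw [hJ, Finset.mem_filter, Finset.mem_product, Finset.mem_range, Finset.mem_range]
          exact ⟨⟨by omega, by omega⟩, hk, hkl⟩
        · rw [Finset.mem_product, Finset.mem_filter]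
          exact ⟨⟨hp1, hmem⟩, hp2⟩
  have hmul : ∀ N l : ℕ, ((Finset.Icc 1 N).filter (fun h : ℕ => l ∣ h)).card = N / l := by
    intro N l
    have : Finset.Icc 1 N = Finset.Ioc 0 N := by
      ext x
      simp only [Finset.mem_Icc, Finset.mem_Ioc]
      omega
    rw [this]
    exact Nat.Ioc_filter_dvd_card_eq_div N l
  have hcard : ∀ N : ℕ,
      (((Finset.Icc 1 N ×ˢ Finset.Icc 1 N).filter (fun p => ¬ Visible F p.1 p.2)).card : ℝ) ≤
      a0 * N + (∑ q ∈ J, (((Finset.Icc 1 N).filter (· ∈ ratioSet F q.1 q.2)).card : ℝ) * N +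
        ∑ l ∈ Finset.Ioc A N,
          (((Finset.Icc 1 N).filter (fun a : ℕ => (l : ℤ) ∣ F.eval (a : ℤ))).card : ℝ) *
            ((N / l : ℕ) : ℝ)) := by
    intro N
    have h1 := (Finset.card_le_card (hcover N)).trans (Finset.card_union_le _ _)
    have h2 := Finset.card_union_le
      (J.biUnion fun q => ((Finset.Icc 1 N).filter (· ∈ ratioSet F q.1 q.2)) ×ˢ Finset.Icc 1 N)
      ((Finset.Ioc A N).biUnion fun l =>
          ((Finset.Icc 1 N).filter (fun a : ℕ => (l : ℤ) ∣ F.eval (a : ℤ))) ×ˢ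
            ((Finset.Icc 1 N).filter (fun h : ℕ => l ∣ h)))
    have h3 : (J.biUnion fun q =>
        ((Finset.Icc 1 N).filter (· ∈ ratioSet F q.1 q.2)) ×ˢ Finset.Icc 1 N).card ≤
        ∑ q ∈ J, ((Finset.Icc 1 N).filter (· ∈ ratioSet F q.1 q.2)).card * N := by
      refine Finset.card_biUnion_le.trans (le_of_eq ?_)
      refine Finset.sum_congr rfl fun q _ => ?_
      rw [Finset.card_product, Nat.card_Icc, Nat.add_sub_cancel]
    have h4 : ((Finset.Ioc A N).biUnion fun l =>
          ((Finset.Icc 1 N).filter (fun a : ℕ => (l : ℤ) ∣ F.eval (a : ℤ))) ×ˢ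
            ((Finset.Icc 1 N).filter (fun h : ℕ => l ∣ h))).card ≤
        ∑ l ∈ Finset.Ioc A N,
          ((Finset.Icc 1 N).filter (fun a : ℕ => (l : ℤ) ∣ F.eval (a : ℤ))).card * (N / l) := by
      refine Finset.card_biUnion_le.trans (le_of_eq ?_)
      refine Finset.sum_congr rfl fun q _ => ?_
      rw [Finset.card_product, hmul]
    have h5 : (Finset.range a0 ×ˢ Finset.Icc 1 N).card = a0 * N := by
      rw [Finset.card_product, Finset.card_range, Nat.card_Icc, Nat.add_sub_cancel]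
    have h6 : ((Finset.Icc 1 N ×ˢ Finset.Icc 1 N).filter (fun p => ¬ Visible F p.1 p.2)).card ≤
        a0 * N + (∑ q ∈ J, ((Finset.Icc 1 N).filter (· ∈ ratioSet F q.1 q.2)).card * N +
        ∑ l ∈ Finset.Ioc A N,
          ((Finset.Icc 1 N).filter (fun a : ℕ => (l : ℤ) ∣ F.eval (a : ℤ))).card * (N / l)) := by
      omega
    have h7 := (Nat.cast_le (α := ℝ)).mpr h6
    push_cast at h7
    push_cast
    exact h7
  -- eventual bounds
  have hev1 : ∀ᶠ N : ℕ in atTop, (a0 : ℝ) * (3 / ε) ≤ N :=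
    tendsto_natCast_atTop_atTop.eventually_ge_atTop _
  have hev2 : ∀ᶠ N : ℕ in atTop, ∀ q ∈ J,
      (((Finset.Icc 1 N).filter (· ∈ ratioSet F q.1 q.2)).card : ℝ) ≤
        (ε / (3 * ((J.card : ℝ) + 1))) * N := by
    rw [Filter.eventually_all_finset]
    intro q hq
    rw [hJ, Finset.mem_filter] at hq
    exact ratio_density F hF hr q.1 q.2 hq.2.1 hq.2.2 _ (by positivity)
  filter_upwards [hev1, hev2] with N hN1 hN2
  have hN0 : (0 : ℝ) ≤ N := Nat.cast_nonneg N
  have e1 : (a0 : ℝ) * N ≤ ε / 3 * (N : ℝ) ^ 2 := by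
    have h4 : (a0 : ℝ) * (3 / ε) * (ε / 3) ≤ N * (ε / 3) := by gcongr
    have h5 : (a0 : ℝ) * (3 / ε) * (ε / 3) = a0 := by field_simp
    rw [h5] at h4
    nlinarith
  have e2 : ∑ q ∈ J, (((Finset.Icc 1 N).filter (· ∈ ratioSet F q.1 q.2)).card : ℝ) * N ≤
      ε / 3 * (N : ℝ) ^ 2 := by
    calc ∑ q ∈ J, (((Finset.Icc 1 N).filter (· ∈ ratioSet F q.1 q.2)).card : ℝ) * N
        ≤ ∑ q ∈ J, ((ε / (3 * ((J.card : ℝ) + 1))) * N) * N := by
          refine Finset.sum_le_sum fun q hq => ?_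
          exact mul_le_mul_of_nonneg_right (hN2 q hq) hN0
      _ = (J.card / ((J.card : ℝ) + 1)) * (ε / 3 * (N : ℝ) ^ 2) := by
          rw [Finset.sum_const, nsmul_eq_mul]
          field_simp
      _ ≤ 1 * (ε / 3 * (N : ℝ) ^ 2) := by
          refine mul_le_mul_of_nonneg_right ?_ (by positivity)
          rw [div_le_one (by positivity)]
          linarith
      _ = ε / 3 * (N : ℝ) ^ 2 := one_mul _
  have e3 : ∑ l ∈ Finset.Ioc A N,
      (((Finset.Icc 1 N).filter (fun a : ℕ => (l : ℤ) ∣ F.eval (a : ℤ))).card : ℝ) *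
        ((N / l : ℕ) : ℝ) ≤ ε / 3 * (N : ℝ) ^ 2 := by
    have h1 : ∀ l ∈ Finset.Ioc A N,
        (((Finset.Icc 1 N).filter (fun a : ℕ => (l : ℤ) ∣ F.eval (a : ℤ))).card : ℝ) *
        ((N / l : ℕ) : ℝ) ≤ (C * (N : ℝ) ^ 2) * (l : ℝ) ^ (-(1 + δ)) := by
      intro l hl
      rw [Finset.mem_Ioc] at hl
      have hl0 : (0 : ℝ) < l := by
        have : 0 < l := by omega
        exact_mod_cast this
      calc (((Finset.Icc 1 N).filter (fun a : ℕ => (l : ℤ) ∣ F.eval (a : ℤ))).card : ℝ) *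
            ((N / l : ℕ) : ℝ) ≤ (C * N * (l : ℝ) ^ (-δ)) * ((N : ℝ) / l) := by
            refine mul_le_mul (hdvd N l (by omega) hl.2) Nat.cast_div_le (by positivity)
              (by positivity)
        _ = (C * (N : ℝ) ^ 2) * (l : ℝ) ^ (-(1 + δ)) := by
            have : (l : ℝ) ^ (-(1 + δ)) = (l : ℝ) ^ (-δ) * (l : ℝ)⁻¹ := by
              rw [← Real.rpow_neg_one, ← Real.rpow_add hl0]
              congr 1
              ring
            rw [this]
            ring
    have h2 := hs (Finset.Ioc A N) (by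
      rw [Finset.disjoint_left]
      intro x hx hxs
      have h3 : x ≤ s.sup id := Finset.le_sup (f := id) hxs
      rw [Finset.mem_Ioc] at hx
      omega)
    have h3 : ∑ l ∈ Finset.Ioc A N, (l : ℝ) ^ (-(1 + δ)) ≤ ε / (3 * C) :=
      ((le_abs_self _).trans_lt h2).le
    calc _ ≤ ∑ l ∈ Finset.Ioc A N, (C * (N : ℝ) ^ 2) * (l : ℝ) ^ (-(1 + δ)) :=
          Finset.sum_le_sum h1
      _ = (C * (N : ℝ) ^ 2) * ∑ l ∈ Finset.Ioc A N, (l : ℝ) ^ (-(1 + δ)) := by
          rw [Finset.mul_sum]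
      _ ≤ (C * (N : ℝ) ^ 2) * (ε / (3 * C)) := by
          exact mul_le_mul_of_nonneg_left h3 (by positivity)
      _ = ε / 3 * (N : ℝ) ^ 2 := by
          field_simp
  have := hcard N
  linarith

end Pool.Agent.X104.VL
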