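import Pool.Agent.X104.VL.Div

/-!
For an integer polynomial `F` with two distinct roots and `0 < k < l`, the set of `a` for which
`l F(u) = k F(a)` for some `u < a` has density zero.
-/

set_option autoImplicit false

open Filter Topology Polynomial

namespace Pool.Agent.X104.VL

/-- Leading behaviour. -/
theorem tendsto_div_pow (P : ℝ[X]) (n : ℕ) (hn : P.natDegree ≤ n) :
    Tendsto (fun x : ℝ => P.eval x / x ^ n) atTop (𝓝 (P.coeff n)) := by
  have h1 : ∀ x : ℝ, P.eval x / x ^ n =
      ∑ i ∈ Finset.range (n + 1), P.coeff i * (x ^ i / x ^ n) := by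
    intro x
    rw [Polynomial.eval_eq_sum_range' (Nat.lt_succ_of_le hn), Finset.sum_div]
    refine Finset.sum_congr rfl fun i _ => by ring
  have h2 : P.coeff n = ∑ i ∈ Finset.range (n + 1), P.coeff i * (if i = n then 1 else 0) := by
    simp
  rw [h2]
  simp_rw [h1]
  refine tendsto_finsetSum _ fun i hi => ?_
  refine Tendsto.const_mul _ ?_
  rcases eq_or_ne i n with h | h
  · subst h
    rw [if_pos rfl]
    refine tendsto_const_nhds.congr' ?_
    filter_upwards [eventually_gt_atTop (0 : ℝ)] with x hx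
    rw [div_self (by positivity)]
  · rw [if_neg h]
    exact tendsto_pow_div_pow_atTop_zero (lt_of_le_of_ne (Nat.lt_succ_iff.mp (Finset.mem_range.mp hi)) h)

/-- Second order asymptotics of solutions of `l P(y) = k P(x)`. -/
theorem second_order (P : ℝ[X]) (hd : 0 < P.natDegree) (hP : 0 < P.leadingCoeff) (k l : ℝ)
    (hk : 0 < k) (hl : 0 < l) {ι : Type*} (L : Filter ι) (x y : ι → ℝ)
    (hx : Tendsto x L atTop) (hy : Tendsto y L atTop) (he : ∀ᶠ i in L, l * P.eval (y i) = k * P.eval (x i)) :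
    ∃ β : ℝ, Tendsto (fun i => y i - (k / l) ^ ((P.natDegree : ℝ)⁻¹) * x i) L (𝓝 β) := by
  set d := P.natDegree with hdd
  set c := P.leadingCoeff with hc
  set α : ℝ := (k / l) ^ ((d : ℝ)⁻¹) with hα
  have hα0 : 0 < α := by positivity
  have hαd : α ^ d = k / l := by
    rw [hα, Real.rpow_inv_natCast_pow (by positivity) hd.ne']
  have hP1 : Tendsto (fun x : ℝ => P.eval x / x ^ d) atTop (𝓝 c) := by
    have := tendsto_div_pow P d le_rfl
    rwa [hdd, Polynomial.coeff_natDegree] at this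
  set G : ℝ[X] := P.eraseLead with hG
  have hG1 : Tendsto (fun x : ℝ => G.eval x / x ^ (d - 1)) atTop (𝓝 (G.coeff (d - 1))) :=
    tendsto_div_pow G (d - 1) (Polynomial.eraseLead_natDegree_le P)
  have hGe : ∀ x : ℝ, P.eval x = c * x ^ d + G.eval x := by
    intro x
    have := congrArg (Polynomial.eval x) (Polynomial.eraseLead_add_monomial_natDegree_leadingCoeff P)
    simp only [Polynomial.eval_add, Polynomial.eval_monomial] at this
    rw [← this, hG]
    ring
  set g := G.coeff (d - 1) with hg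
  -- the ratio
  have hx0 : ∀ᶠ i in L, 0 < x i := hx.eventually (eventually_gt_atTop 0)
  have hy0 : ∀ᶠ i in L, 0 < y i := hy.eventually (eventually_gt_atTop 0)
  have hPy := hP1.comp hy
  have hPx := hP1.comp hx
  have hrd : Tendsto (fun i => (y i / x i) ^ d) L (𝓝 (k / l)) := by
    have h1 : Tendsto (fun i => (k / l) * ((P.eval (x i) / (x i) ^ d) / (P.eval (y i) / (y i) ^ d)))
        L (𝓝 ((k / l) * (c / c))) := (hPx.div hPy hP.ne').const_mul _
    rw [div_self hP.ne', mul_one] at h1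
    refine h1.congr' ?_
    have hPy0 : ∀ᶠ i in L, 0 < P.eval (y i) / (y i) ^ d := hPy.eventually_const_lt hP
    filter_upwards [hx0, hy0, he, hPy0] with i h1 h2 h3 h4
    have h5 : P.eval (y i) ≠ 0 := by
      intro h
      rw [h, zero_div] at h4
      exact lt_irrefl _ h4
    have h6 : P.eval (x i) = l / k * P.eval (y i) := by
      field_simp
      linarith
    rw [h6, div_pow]
    field_simp
  have hr : Tendsto (fun i => y i / x i) L (𝓝 α) := by
    have h1 := hrd.rpow_const (p := (d : ℝ)⁻¹) (Or.inr (by positivity))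
    refine h1.congr' ?_
    filter_upwards [hx0, hy0] with i h1 h2
    rw [Real.pow_rpow_inv_natCast (by positivity) hd.ne']
  have hS : Tendsto (fun i => ∑ j ∈ Finset.range d, (y i / x i) ^ j * α ^ (d - 1 - j)) L
      (𝓝 (d * α ^ (d - 1))) := by
    have h1 : Tendsto (fun i => ∑ j ∈ Finset.range d, (y i / x i) ^ j * α ^ (d - 1 - j)) L
        (𝓝 (∑ j ∈ Finset.range d, α ^ j * α ^ (d - 1 - j))) :=
      tendsto_finsetSum _ fun j _ => (hr.pow j).mul_const _
    have h2 : ∑ j ∈ Finset.range d, α ^ j * α ^ (d - 1 - j) = d * α ^ (d - 1) := by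
      rw [Finset.sum_congr rfl (g := fun _ => α ^ (d - 1))]
      · simp
      · intro j hj
        have := Finset.mem_range.mp hj
        rw [← pow_add]
        congr 1
        omega
    rwa [h2] at h1
  have hnum : Tendsto (fun i => (k * G.eval (x i) - l * G.eval (y i)) / (x i) ^ (d - 1)) L
      (𝓝 (k * g - l * (g * α ^ (d - 1)))) := by
    have h1 : Tendsto (fun i => k * (G.eval (x i) / (x i) ^ (d - 1)) -
        l * ((G.eval (y i) / (y i) ^ (d - 1)) * (y i / x i) ^ (d - 1))) L
        (𝓝 (k * g - l * (g * α ^ (d - 1)))) :=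
      ((hG1.comp hx).const_mul k).sub (((hG1.comp hy).mul (hr.pow (d - 1))).const_mul l)
    refine h1.congr' ?_
    filter_upwards [hx0, hy0] with i h1 h2
    rw [div_pow]
    field_simp
  refine ⟨(k * g - l * (g * α ^ (d - 1))) / (c * l * (d * α ^ (d - 1))), ?_⟩
  have hden : c * l * (d * α ^ (d - 1)) ≠ 0 := by
    have : (0 : ℝ) < d := by exact_mod_cast hd
    positivity
  refine (hnum.div (hS.const_mul (c * l)) hden).congr' ?_
  have hS0 : ∀ᶠ i in L, 0 < ∑ j ∈ Finset.range d, (y i / x i) ^ j * α ^ (d - 1 - j) := by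
    refine hS.eventually_const_lt ?_
    have : (0 : ℝ) < d := by exact_mod_cast hd
    positivity
  filter_upwards [hx0, hy0, he, hS0] with i h1 h2 h3 h4
  rw [hGe, hGe] at h3
  have h5 : (∑ j ∈ Finset.range d, (y i / x i) ^ j * α ^ (d - 1 - j)) * (y i / x i - α) =
      (y i / x i) ^ d - α ^ d := (Commute.all _ _).geom_sum₂_mul d
  have h6 : (x i) ^ d = (x i) ^ (d - 1) * x i := by
    rw [← pow_succ]
    congr 1
    omega
  simp only [Pi.div_apply]
  have h7 : k * G.eval (x i) - l * G.eval (y i) = c * (l * (y i) ^ d - k * (x i) ^ d) := by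
    linarith
  have h8 : l * (y i) ^ d - k * (x i) ^ d = l * (x i) ^ d * ((y i / x i) ^ d - α ^ d) := by
    rw [hαd, div_pow]
    field_simp
  rw [h7, h8, ← h5, h6]
  generalize (∑ j ∈ Finset.range d, (y i / x i) ^ j * α ^ (d - 1 - j)) = W at h4
  field_simp

/-- A convergent integer-valued function is eventually constant. -/
theorem eventually_const_of_int {ι : Type*} (L : Filter ι) [L.NeBot] (f : ι → ℤ) (b : ℝ)
    (h : Tendsto (fun i => (f i : ℝ)) L (𝓝 b)) : ∃ n : ℤ, (n : ℝ) = b ∧ ∀ᶠ i in L, f i = n := by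
  have h1 : ∀ᶠ i in L, |(f i : ℝ) - b| < 1 / 2 := by
    have := (Metric.tendsto_nhds.mp h) (1 / 2) (by norm_num)
    simpa [Real.dist_eq] using this
  obtain ⟨i0, hi0⟩ := h1.exists
  have h2 : ∀ᶠ i in L, f i = f i0 := by
    filter_upwards [h1] with i hi
    have h3 : |((f i - f i0 : ℤ) : ℝ)| < 1 := by
      push_cast
      have : (f i : ℝ) - f i0 = (f i - b) - (f i0 - b) := by ring
      rw [this]
      refine (abs_sub _ _).trans_lt ?_
      linarith
    have h4 : |f i - f i0| < 1 := by exact_mod_cast h3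
    have := Int.abs_lt_one_iff.mp h4
    omega
  refine ⟨f i0, ?_, h2⟩
  have h3 : Tendsto (fun i => (f i : ℝ)) L (𝓝 (f i0 : ℝ)) := by
    refine tendsto_const_nhds.congr' ?_
    filter_upwards [h2] with i hi
    rw [hi]
  exact tendsto_nhds_unique h3 h

/-- A polynomial with two distinct roots is not self-similar under a contraction. -/
theorem no_contraction (P : ℂ[X]) (hP : P ≠ 0) (z w : ℂ) (hzw : z ≠ w) (hz : P.eval z = 0)
    (hw : P.eval w = 0) (a b : ℂ) (ha : a ≠ 0) (ha1 : ‖a‖ < 1)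
    (h : ∀ z : ℂ, P.eval z = 0 → P.eval (a * z + b) = 0) : False := by
  classical
  have hne : (P.roots.toFinset.offDiag).Nonempty :=
    ⟨(z, w), by
      rw [Finset.mem_offDiag]
      exact ⟨by simp [hP, hz], by simp [hP, hw], hzw⟩⟩
  obtain ⟨p, hp, hmin⟩ := Finset.exists_min_image P.roots.toFinset.offDiag
    (fun p : ℂ × ℂ => ‖p.1 - p.2‖) hne
  rw [Finset.mem_offDiag] at hp
  obtain ⟨h1, h2, h3⟩ := hp
  have e1 : P.eval p.1 = 0 := by simpa [hP] using h1
  have e2 : P.eval p.2 = 0 := by simpa [hP] using h2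
  have h4 := hmin (a * p.1 + b, a * p.2 + b) (by
    rw [Finset.mem_offDiag]
    refine ⟨by simp [hP, h _ e1], by simp [hP, h _ e2], ?_⟩
    intro h5
    apply h3
    have h6 : a * p.1 + b = a * p.2 + b := h5
    exact mul_left_cancel₀ ha (add_right_cancel h6))
  simp only at h4
  have h5 : a * p.1 + b - (a * p.2 + b) = a * (p.1 - p.2) := by ring
  rw [h5, norm_mul] at h4
  have h6 : 0 < ‖p.1 - p.2‖ := by
    rw [norm_pos_iff, sub_ne_zero]
    exact h3
  nlinarith

/-- The solutions of `l F(u) = k F(a)` with `u < a`. -/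
def ratioSet (F : ℤ[X]) (k l : ℕ) : Set ℕ :=
  {a | ∃ u : ℕ, u < a ∧ (l : ℤ) * F.eval (u : ℤ) = (k : ℤ) * F.eval (a : ℤ)}

/-- For every `m > 0` only finitely many pairs `a, a + m` lie in the ratio set. -/
theorem finite_gap (F : ℤ[X]) (hF : 0 < F.leadingCoeff)
    (hr : ∃ z w : ℂ, z ≠ w ∧ aeval z F = 0 ∧ aeval w F = 0) (k l : ℕ) (hk : 0 < k) (hkl : k < l)
    (m : ℕ) (hm : 0 < m) : {a | a ∈ ratioSet F k l ∧ a + m ∈ ratioSet F k l}.Finite := by
  classical
  by_contra hinf
  have hinf' : {a | a ∈ ratioSet F k l ∧ a + m ∈ ratioSet F k l}.Infinite := hinf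
  set T : Set ℕ := {a | a ∈ ratioSet F k l ∧ a + m ∈ ratioSet F k l} with hT
  -- the real polynomial
  set P : ℝ[X] := F.map (Int.castRingHom ℝ) with hPdef
  have hPe : ∀ n : ℕ, P.eval (n : ℝ) = ((F.eval (n : ℤ) : ℤ) : ℝ) := by
    intro n
    rw [hPdef, Polynomial.eval_natCast_map]
    simp
  have hF0 : F ≠ 0 := by
    rintro rfl
    simp at hF
  have hPl : P.leadingCoeff = (F.leadingCoeff : ℝ) := by
    rw [hPdef, Polynomial.leadingCoeff_map_of_injective (RingHom.injective_int _)]
    simp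
  have hPd : P.natDegree = F.natDegree := by
    rw [hPdef, Polynomial.natDegree_map_eq_of_injective (RingHom.injective_int _)]
  have hPlc : 0 < P.leadingCoeff := by
    rw [hPl]
    exact_mod_cast hF
  obtain ⟨z, w, hzw, hz, hw⟩ := hr
  set Q : ℂ[X] := F.map (Int.castRingHom ℂ) with hQdef
  have hQ0 : Q ≠ 0 := by
    rw [hQdef, Polynomial.map_ne_zero_iff (RingHom.injective_int _)]
    exact hF0
  have hQz : Q.eval z = 0 := by
    rw [hQdef, Polynomial.eval_map]
    exact hz
  have hQw : Q.eval w = 0 := by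
    rw [hQdef, Polynomial.eval_map]
    exact hw
  have hQe : ∀ n : ℕ, Q.eval (n : ℂ) = ((F.eval (n : ℤ) : ℤ) : ℂ) := by
    intro n
    rw [hQdef, Polynomial.eval_natCast_map]
    simp
  have hd : 0 < F.natDegree := by
    rcases Nat.eq_zero_or_pos F.natDegree with h | h
    · exfalso
      rw [Polynomial.eq_C_of_natDegree_eq_zero h] at hz hF0
      simp only [Polynomial.aeval_C] at hz
      apply hF0
      rw [map_eq_zero_iff] at hz
      · rw [hz]; simp
      · exact RingHom.injective_int _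
    · exact h
  -- choice of u
  have hch : ∀ a : ℕ, ∃ u : ℕ, a ∈ ratioSet F k l →
      (u < a ∧ (l : ℤ) * F.eval (u : ℤ) = (k : ℤ) * F.eval (a : ℤ)) := by
    intro a
    by_cases h : a ∈ ratioSet F k l
    · obtain ⟨u, hu⟩ := h
      exact ⟨u, fun _ => hu⟩
    · exact ⟨0, fun h' => absurd h' h⟩
  choose u hu using hch
  have hl : 0 < l := by omega
  have hkr : (0 : ℝ) < k := by exact_mod_cast hk
  have hlr : (0 : ℝ) < l := by exact_mod_cast hl
  have hPtop : Tendsto (fun x : ℝ => P.eval x) atTop atTop := by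
    refine Polynomial.tendsto_atTop_of_leadingCoeff_nonneg P ?_ hPlc.le
    rw [← Polynomial.natDegree_pos_iff_degree_pos, hPd]
    exact hd
  -- the filter
  set L : Filter ℕ := atTop ⊓ 𝓟 (ratioSet F k l) with hL
  have hLx : Tendsto (fun a : ℕ => (a : ℝ)) L atTop :=
    tendsto_natCast_atTop_atTop.mono_left inf_le_left
  have hLmem : ∀ᶠ a in L, a ∈ ratioSet F k l := by
    rw [hL]
    exact eventually_inf_principal.mpr (Eventually.of_forall fun a ha => ha)
  have heq : ∀ a ∈ ratioSet F k l, (l : ℝ) * P.eval (u a : ℝ) = k * P.eval (a : ℝ) := by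
    intro a ha
    rw [hPe, hPe]
    exact_mod_cast (hu a ha).2
  have hLy : Tendsto (fun a : ℕ => (u a : ℝ)) L atTop := by
    rw [tendsto_natCast_atTop_iff, tendsto_atTop]
    intro b
    -- values at arguments below `b` are bounded
    have hPx : Tendsto (fun a : ℕ => P.eval (a : ℝ)) L atTop := hPtop.comp hLx
    set M : ℝ := ∑ v ∈ Finset.range b, |P.eval (v : ℝ)| with hM
    have h1 : ∀ᶠ a : ℕ in L, (l : ℝ) * M / k < P.eval (a : ℝ) := hPx.eventually_gt_atTop _
    filter_upwards [h1, hLmem] with a h2 h3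
    by_contra h4
    push Not at h4
    have h5 : P.eval (u a : ℝ) ≤ M :=
      (le_abs_self _).trans (Finset.single_le_sum (f := fun v : ℕ => |P.eval (v : ℝ)|)
        (fun _ _ => abs_nonneg _) (Finset.mem_range.mpr h4))
    have h6 := heq a h3
    rw [div_lt_iff₀ hkr] at h2
    nlinarith
  obtain ⟨β, hβ⟩ := second_order P (by rw [hPd]; exact hd) hPlc k l hkr hlr L
    (fun a : ℕ => (a : ℝ)) (fun a : ℕ => (u a : ℝ)) hLx hLy (by
      filter_upwards [hLmem] with a ha
      exact heq a ha)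
  set α : ℝ := ((k : ℝ) / l) ^ ((P.natDegree : ℝ)⁻¹) with hα
  have hα0 : 0 < α := by positivity
  have hα1 : α < 1 := by
    refine Real.rpow_lt_one (by positivity) ?_ ?_
    · rw [div_lt_one hlr]
      exact_mod_cast hkl
    · rw [hPd]
      positivity
  -- along T
  set LT : Filter ℕ := atTop ⊓ 𝓟 T with hLT
  have hTne : LT.NeBot := by
    rw [hLT]
    exact Filter.frequently_mem_iff_neBot.mp (Nat.frequently_atTop_iff_infinite.mpr hinf')
  have hTL : LT ≤ L := by
    rw [hLT, hL]
    exact inf_le_inf_left _ (principal_mono.mpr fun a ha => ha.1)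
  have hTLm : Tendsto (fun a => a + m) LT L := by
    rw [hL, tendsto_inf]
    refine ⟨(tendsto_add_atTop_nat m).mono_left inf_le_left, ?_⟩
    rw [tendsto_principal, hLT]
    exact eventually_inf_principal.mpr (Eventually.of_forall fun a ha => ha.2)
  have h1 : Tendsto (fun a : ℕ => (((u (a + m) : ℤ) - (u a : ℤ) : ℤ) : ℝ)) LT (𝓝 (α * m)) := by
    have h2 := ((hβ.comp hTLm).sub (hβ.mono_left hTL)).add_const (α * m)
    rw [sub_self, zero_add] at h2
    refine h2.congr fun a => ?_
    simp only [Function.comp]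
    push_cast
    ring
  obtain ⟨n, hn, -⟩ := eventually_const_of_int LT _ _ h1
  have hLne : L.NeBot := hTne.mono hTL
  have h3 : Tendsto (fun a : ℕ => (((m : ℤ) * (u a : ℤ) - n * (a : ℤ) : ℤ) : ℝ)) L (𝓝 (m * β)) := by
    refine (hβ.const_mul (m : ℝ)).congr fun a => ?_
    push_cast
    rw [hn]
    ring
  obtain ⟨n0, -, hn0⟩ := eventually_const_of_int L _ _ h3
  have hmr : (0 : ℝ) < m := by exact_mod_cast hm
  have hmc : (m : ℂ) ≠ 0 := by exact_mod_cast hm.ne'
  -- polynomial identity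
  have hid : Polynomial.C (l : ℂ) * Q.comp (Polynomial.C ((n : ℂ) / m) * X + Polynomial.C ((n0 : ℂ) / m)) =
      Polynomial.C (k : ℂ) * Q := by
    refine Polynomial.eq_of_infinite_eval_eq _ _ ?_
    have h4 : ∀ᶠ a : ℕ in L, (l : ℂ) * Q.eval (((n : ℂ) / m) * (a : ℂ) + ((n0 : ℂ) / m)) =
        (k : ℂ) * Q.eval (a : ℂ) := by
      filter_upwards [hn0, hLmem] with a h5 h6
      have h7 : ((n : ℂ) / m) * (a : ℂ) + ((n0 : ℂ) / m) = ((u a : ℕ) : ℂ) := by
        have h8 : (m : ℂ) * (u a : ℂ) - n * (a : ℂ) = n0 := by exact_mod_cast h5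
        field_simp
        linear_combination (-1 : ℂ) * h8
      rw [h7, hQe, hQe]
      exact_mod_cast (hu a h6).2
    have h5 : {a : ℕ | (l : ℂ) * Q.eval (((n : ℂ) / m) * (a : ℂ) + ((n0 : ℂ) / m)) =
        (k : ℂ) * Q.eval (a : ℂ)}.Infinite := by
      rw [← Nat.frequently_atTop_iff_infinite]
      exact (h4.frequently).filter_mono inf_le_left
    refine (h5.image (f := fun a : ℕ => (a : ℂ)) (fun a _ b _ h => by simpa using h)).mono ?_
    rintro _ ⟨a, ha, rfl⟩
    simp only [Set.mem_ofPred_eq] at ha ⊢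
    simp only [Polynomial.eval_mul, Polynomial.eval_C, Polynomial.eval_comp, Polynomial.eval_add,
      Polynomial.eval_X]
    exact ha
  have hαn : (n : ℝ) / m = α := by
    rw [hn]
    field_simp
  have hnc : (n : ℂ) / m = ((α : ℝ) : ℂ) := by
    rw [← hαn]
    push_cast
    rfl
  refine no_contraction Q hQ0 z w hzw hQz hQw ((n : ℂ) / m) ((n0 : ℂ) / m) ?_ ?_ ?_
  · rw [hnc]
    exact_mod_cast hα0.ne'
  · rw [hnc, Complex.norm_real, Real.norm_eq_abs, abs_of_pos hα0]
    exact hα1
  · intro v hv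
    have h4 := congrArg (Polynomial.eval v) hid
    simp only [Polynomial.eval_mul, Polynomial.eval_C, Polynomial.eval_comp, Polynomial.eval_add,
      Polynomial.eval_X, hv, mul_zero, mul_eq_zero, Nat.cast_eq_zero] at h4
    rcases h4 with h4 | h4
    · omega
    · exact h4

end Pool.Agent.X104.VL
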